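import Pool.Agent.H95.QF.Main
import Pool.Agent.H95.M.Q68_OV_Line

/-!
# `K_4` of one curve of genus one and finitely many systems of quadratic equations

Let `S` be **one** smooth projective curve of genus one over `ℚ`, with Jacobian `E`. The question Q1 for
`S` is whether `Π(α) ∈ ℚ^× · L'(E, -1)` for all nonzero `α` in `H_M^2(S, ℚ(3))` (`PeriodStatement`).

For a smooth projective scheme `Y` over `ℚ` let `M^m(Y) = H_M^{2m-4}(Y, ℚ(m))`,
`D^m(Y) = H_𝒟^{2m-4}(Y_ℝ, ℝ(m))`, and `r : M^m(Y) → D^m(Y)` the regulator; here `M^3(S) = H_M^2(S, ℚ(3))`
and `D^3(S) = H^1(S(ℂ), ℝ(2))^+`, a real line, and the period of a class is `(2πi)^{-2}` times its integral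
over `γ_S^+`. The cycles `c` on `S × Y` of the codimension `m - 2` operate by `c_*` on both, from the index
`3` on `S` to the index `m` on `Y`. Let `V ⊆ D^3(S)` be the rational line of the classes whose period is a
rational multiple of `L'(E, -1)`. Let `A^m(Y) ⊆ D^m(Y)` be the rational subspace generated by the images
`c_* V`, and `B^m(Y) = B_1^m(Y) ⊕ B_2^m(Y)`, where `B_1^m(Y) ⊆ D^m(Y)` is generated by `A^m(Y)` and the
`c_* r(x)`, `x` in `M^3(S)`, and `B_2^m(Y) ⊆ M^m(Y)` by the `c_* x`, `x` in `M^3(S)` with `r(x) = 0`, for
all cycles `c` as above. They are additive functors of the Chow motive of `Y`, and the map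
`A^m(Y) → B^m(Y)` (the inclusion in `B_1^m(Y)`) is bijective if and only if all these `c_* r(x)` are in
`A^m(Y)` and all these `c_* x` with `r(x) = 0` are zero (`LineStable`). For a separated scheme `Z` of finite
type over `ℚ` let `W(Z)` be its weight complex (Gillet, Soulé; `W(Z) = h(Z)` for smooth projective `Z`), and
put `A^{m,i}(Z) = H^i(A^m(W(Z)))`, `B^{m,i}(Z) = H^i(B^m(W(Z)))`. `At C m Z` says that the maps
`A^{m,i}(Z) → B^{m,i}(Z)` are isomorphisms for this `m` and all `i`, `BijAll C Z` that they are
isomorphisms for all `m` and `i`. The standard properties of these groups are collected in `IsCyclicPair`;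
that smooth projective schemes generate, in each dimension, is `WeightGen`. In dimension zero all groups
which occur are zero, by the theorem of Borel (`zero`).

Let `Built k n` be the smallest class of schemes which contains the affine schemes of dimension at most
`n` and is closed under closed-open decompositions (two out of three), affine bundles (in both
directions), division by `𝔾_m` and descent along the coverings `s ^ d = u`, `u` a unit. There is no
restriction on the dimension of the schemes in this class.

**Theorem.** There are finite lists `L`, `L'` of affine schemes given by equations of degree at most two,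
three equations for those in `L`, which depend only on `S`, with the following properties.

(1) The question Q1 has a positive answer for `S` if and only if all the maps `A^{m,i}(Z) → B^{m,i}(Z)` are
isomorphisms for the finitely many systems of **three** quadratic equations `Z` in `L`.

(2) It has if and only if, for the finitely many systems of quadratic equations `Z` in `L'` and the **one**
index `m = 3`, the maps are isomorphisms for all `i`.

(3) It has if and only if all the maps are isomorphisms for all schemes in `Built ℚ 1`, of any dimension;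
and then they are isomorphisms for all separated schemes of finite type over `ℚ`. For all schemes in
`Built ℚ 0` they are isomorphisms in any case.

(4) The class `Built ℚ n` contains all schemes given by `r + 1` quadratic equations and any number of
linear equations in any number of variables over an affine base `Spec A`, if `dim A + r ≤ n`. It contains
all closed subschemes of projective spaces which are the intersection of `n + 1` quadrics and hyperplanes.
-/

set_option autoImplicit false

open CategoryTheory CategoryTheory.Limits AlgebraicGeometry Pool.Agent.Y116.UV Pool.Agent.Z125.UN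
  Pool.Agent.Q193.LT Pool.Agent.Q49.WU Pool.Agent.Q68.OV Pool.Agent.H91.QS Pool.Agent.H95.QF

universe w u

namespace Pool.Agent.Results.MP_4132b3_nt.QuadraticSystems

/-- A curve `S` of genus one over `ℚ`: `M m Y` and `D m Y` are `H_M^{2m-4}(Y, ℚ(m))` and
`H_𝒟^{2m-4}(Y_ℝ, ℝ(m))`, `Cyc m Y` is the type of the cycles of codimension `m - 2` on `S × Y`, `T` and `P`
are `H_M^2(S, ℚ(3))` and `H^1(S(ℂ), ℝ(2))^+`, `per` is the period `(2πi)^{-2} ∫_{γ_S^+}`, and `lval` is
`L'(E, -1)`, which is not zero. -/
abbrev GenusOneData (S : Sch ℚ) := LineData.{w, u} ℚ S 3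

/-- The maps are isomorphisms for the index `m`. -/
def At (C : PairData.{w} ℚ (ℤ × ℤ) ℚ) (m : ℤ) (Z : Sch ℚ) : Prop := BijAt C Prod.fst m Z

/-- **`K_4` of one curve of genus one and finitely many systems of quadratic equations.** See the
explanations above. -/
theorem result {S : Sch ℚ} (hS : SmoothProj S) (hn : topologicalKrullDim S.left ≤ (1 : ℕ)) :
    (∃ L L' : List (Sch ℚ), (∀ X ∈ L, IsQuadratic 3 X) ∧ (∀ X ∈ L', ∃ m, IsQuadratic m X) ∧
      ∀ (D : GenusOneData.{w, u} S) (C : PairData.{w} ℚ (ℤ × ℤ) ℚ), IsLine D → IsCyclicPair C →
        WeightGen C → (∀ Y, SmoothProj Y → ∀ m, (At C m Y ↔ LineStable D m Y)) →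
        (zero : ∀ Y : Sch ℚ, SmoothProj Y → topologicalKrullDim Y.left ≤ (0 : ℕ) → BijAll C Y) →
        (PeriodStatement D ↔ ∀ X ∈ L, BijAll C X) ∧
        (PeriodStatement D ↔ ∀ X ∈ L', At C 3 X) ∧
        (PeriodStatement D ↔ ∀ X : Sch ℚ, Built ℚ 1 X → BijAll C X) ∧
        (PeriodStatement D → ∀ X : Sch ℚ, FT True X → BijAll C X) ∧
        ∀ X : Sch ℚ, Built ℚ 0 X → BijAll C X) ∧
    ∀ n : ℕ, AffineQuadrics ℚ n (Built ℚ n) ∧ ProjectiveQuadrics ℚ n (Built ℚ n) := by
  refine ⟨?_, fun n => ⟨affineQuadrics_built two_ne_zero n, projectiveQuadrics_built two_ne_zero n⟩⟩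
  obtain ⟨L, L', hL, hL', h⟩ := reach_quad.{u, w, 0} hS hn 0 3
  refine ⟨L, L', hL, hL', fun D C hD hC hg bij zero => ?_⟩
  have h3 := h ℚ (lineReach D) C (line_isReach hD) hC hg
    (fun Y hY m => (bij Y hY m).trans (line_closed_iff m Y).symm) zero
  rw [line_holds_iff hD] at h3
  exact h3

end Pool.Agent.Results.MP_4132b3_nt.QuadraticSystems
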