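import Pool.Agent.H26.K4.Tower
import Pool.Agent.H26.Lib.R_pool_sql_team_seeded_3997aac3.Q5.RY.Rigid

/-!
# Beilinson's conjecture for `K_4` of curves of genus one: number fields without automorphisms and with
at most one small prime suffice

Let `C` be a curve of genus one over a number field `K` (or any projective variety). The conjecture for
the base changes `C_F` at `s = m` (for `K_4` of a curve of genus one: `m = -1`, `H^1`, two Frobenius
eigenvalues) says that the regulator is an isomorphism, that `L(H^i(C_F), s)` has a meromorphic
continuation, that its order at `m` is the dimension of motivic cohomology and its leading coefficient a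
rational multiple of the determinant of the regulator. Fix any bound `X₀`. If it holds for the number
fields `F ⊇ K` which have no automorphism but the identity AND at most one prime ideal of norm `≤ X₀`,
then it holds for `K` and for all number fields `F ⊇ K`.

The field theoretic input is a relation with coefficient `1`: the trivial character of the absolute
Galois group of `K` is an integral linear combination of the permutation characters of finitely many
such fields. It is obtained from the relation of `Pool.Agent.H46.SP` (at most one small prime) by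
a second step: if `F` has at most one prime of norm `≤ X₀`, `p > X₀` is a prime number and `a`, `b` are
integers of `F` outside of this prime, then the fields `F(a^(1/p), b^(1/p))`, `F(b^(1/p))` and
`F((a b^i)^(1/p))` again have at most one prime of norm `≤ X₀` (in a residue field with at most `X₀`
elements every element has exactly one `p`-th root, and the order generated by the root of `c` is
maximal at the primes that do not divide `p c`), and for suitable `a`, `b` they have no automorphisms;
they satisfy a relation with coefficient `p`, for all large `p`.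
-/

set_option autoImplicit false

namespace Pool.Agent.Results.MP_4132b3_nt.RigidOneSmallPrime

open NumberField IsDedekindDomain Polynomial Pool.Agent.Q5.RG Pool.Agent.Q5.VL
open Pool.Agent.Q5.BR (Ext)

/-- The identity is the only automorphism of the field `F`. -/
def NoAutomorphisms (F : Type) [Field F] : Prop :=
  ∀ (τ : F ≃+* F) (x : F), τ x = x

/-- The number field `F` has at most one prime ideal of norm `≤ X₀`. -/
def AtMostOneSmallPrime (X₀ : ℕ) (F : Type) [Field F] [NumberField F] : Prop :=
  ∀ w w' : HeightOneSpectrum (𝓞 F),
    Ideal.absNorm w.asIdeal ≤ X₀ → Ideal.absNorm w'.asIdeal ≤ X₀ → w = w'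

/-- The number of the `K`-embeddings of `F` in the algebraic closure of `K` which are fixed by `σ`. -/
noncomputable def fixedEmbeddings (K F : Type) [Field K] [Field F] [Algebra K F]
    (σ : Gal(AlgebraicClosure K/K)) : ℕ :=
  Nat.card {i : F →ₐ[K] AlgebraicClosure K // ∀ x, σ (i x) = i x}

/-- Beilinson's conjecture for `X_F` at `s = m`: the regulator is an isomorphism; for all choices of
the bad Euler factors, `L(H^i(X_F), s)` has a meromorphic continuation to `Ω`; its order at `s = m` is
the dimension of motivic cohomology, and its leading coefficient a rational multiple of the determinant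
of the regulator. -/
def Beilinson {K : Type} [Field K] [NumberField K] {n : ℕ} (X : Set (MvPolynomial (Fin n) (𝓞 K)))
    (d i N : ℕ) (m : ℤ) (Ω : Set ℂ) (M : Spaces ℚ ℝ Gal(AlgebraicClosure K/K)) (F : Type) [Field F]
    [NumberField F] [Algebra K F] : Prop :=
  (∃ r c, M.Reg F r c) ∧
    ∀ B : HeightOneSpectrum (𝓞 F) → ℚ[X], Sys X d i N m F B → M.Pow m Ω F B 1

theorem result (K : Type) [Field K] [NumberField K] (X₀ : ℕ) :
    -- (1) the relation
    (∃ (ι : Type) (_ : Fintype ι) (Y : ι → Ext K) (a : ι → ℤ),
      (∀ j, NoAutomorphisms (Y j).F ∧ AtMostOneSmallPrime X₀ (Y j).F) ∧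
      ∀ σ : Gal(AlgebraicClosure K/K), ∑ j, a j * (fixedEmbeddings K (Y j).F σ : ℤ) = 1) ∧
    -- (2) the conjecture
    ∀ (n : ℕ) (X : Set (MvPolynomial (Fin n) (𝓞 K))) (d i N : ℕ) (_ : i ≤ 2 * d) (m : ℤ)
      (Ω : Set ℂ) (_ : IsDom Ω (m : ℂ))
      (_ : ∀ (F : Type) [Field F] [NumberField F] [Algebra K F], ∃ B, Sys X d i N m F B)
      (M : Spaces ℚ ℝ Gal(AlgebraicClosure K/K)) (_ : M.Good),
      (∀ (F : Type) [Field F] [NumberField F] [Algebra K F], NoAutomorphisms F →
        AtMostOneSmallPrime X₀ F → Beilinson X d i N m Ω M F) →
      ∀ (F : Type) [Field F] [NumberField F] [Algebra K F], Beilinson X d i N m Ω M F := by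
  refine ⟨?_, ?_⟩
  · obtain ⟨ι, _, Y, a, h1, h2, h3⟩ := Pool.Agent.H26.K4.rigid_small_relation K X₀
    refine ⟨ι, inferInstance, Y, a, fun j => ⟨h1 j, h2 j⟩, fun σ => ?_⟩
    rw [← h3 σ]
    refine Finset.sum_congr rfl fun j _ => ?_
    congr 2
    unfold fixedEmbeddings Pool.Agent.W353.NF.fixn
    refine Nat.card_congr (Equiv.subtypeEquivRight fun i => ?_)
    rw [Pool.Agent.W353.NF.act_apply]
    constructor
    · intro h
      exact AlgHom.ext h
    · intro h x
      exact congrArg (fun z : (Y j).F →ₐ[K] AlgebraicClosure K => z x) h
  · intro n X d i N hi m Ω hΩ hsys M hM h F _ _ _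
    have hG := Spaces.goodM hM
    refine (Spaces.conj_iff hM.comp.onto).1 (conjQ_of_law
      (Pool.Agent.H26.K4.gen_rigid_small_law (K := K) (lawQ_isLaw hi hΩ hG hsys) X₀ ?_ F))
    intro F' _ _ _ hr hs
    refine law_of_conjQ ((Spaces.conj_iff hM.comp.onto).2 (h F' hr hs)) fun F'' _ _ _ _ _ => ?_
    obtain ⟨Z, hZr, hZs⟩ := Pool.Agent.H26.K4.exists_rigid_small_above F'' X₀
    let _ : Algebra K Z.F := ((algebraMap F'' Z.F).comp (algebraMap K F'')).toAlgebra
    have : IsScalarTower K F'' Z.F := IsScalarTower.of_algebraMap_eq fun x => rfl
    exact Pool.Agent.Q5.RY.reg_sub_any hG (F' := Z.F)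
      ((Spaces.ex_iff hM.comp.onto).1 (h Z.F hZr hZs).1)

end Pool.Agent.Results.MP_4132b3_nt.RigidOneSmallPrime
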